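import Mathlib
import Pool.Agent.Y224.TS.D11
import Pool.Agent.Y90.S.Main
import Pool.Agent.Y90.R.Ab
import Pool.Agent.Y153.GV.LieMem

/-!
# Tate classes are invariant under the Hodge Lie algebra

Let `S` be a set of symplectic involutions with the same commutant and the same traces as the
conjugates `DS Z σ` of the complex structure (`TD Z S` of `Pool.Agent.Y224.TS`). Under the local
conditions `LocL` each form which is killed by `S` is killed by all `DS Z σ`.
-/

set_option linter.unusedSectionVars false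

namespace Pool.Agent.Y90.L

open Matrix Module Pool.Agent.W437.HC Pool.Agent.W437.HD Pool.Agent.W548.Odd Pool.Agent.W522.U
open Pool.Agent.H204R3.SP Pool.Agent.H204R3.GP Pool.Agent.Y90
open Pool.Agent.Y224.TS (TD LT LT_gen gz_proj gz_bil gz_equiv RkC NSc es_add trace_proj fr_DS
  kills_LT sum_of_tr)
open Pool.Agent.Y153.GV (NLie clo_NLie sum_det_update inv_of_InvF)
open Pool.Agent.Y90.G (ac ac_apply MV InvF)

noncomputable section

variable {G : ℕ} {Z : Matrix (Fin G) (Fin G) ℂ}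
  {S : Set (Matrix (Fin G ⊕ Fin G) (Fin G ⊕ Fin G) ℂ)}

/-- The local conditions. -/
def LocL (Z : Matrix (Fin G) (Fin G) ℂ) : Prop :=
  ∀ U : Submodule ℂ (Fin G ⊕ Fin G → ℂ), IrS (LZ Z) U → 2 ≤ finrank ℂ U → RkC Z U ∧ NSc Z U

/-- The trace of a conjugate of the complex structure on a stable subspace. -/
theorem trace_DS (h : PM Z) (σ : ℂ ≃+* ℂ) {U : Submodule ℂ (Fin G ⊕ Fin G → ℂ)}
    (hU : Stab (LZ Z) U) (hU' : ∀ u ∈ U, mulVecLin (DS Z σ) u ∈ U) :
    LinearMap.trace ℂ U ((mulVecLin (DS Z σ)).restrict hU') =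
      ((Pool.Agent.Y90.tr Z (cjS σ.symm U) : ℤ) : ℂ) := by
  obtain ⟨π, h1, h2, h3⟩ := h.cred U hU
  have e2 := trace_proj (phDS_sq h σ) h2 h3 (fun v => h1 _ (DS_mem σ) v)
  obtain ⟨e6, e7⟩ := fr_DS (Z := Z) σ U
  rw [e6, e7] at e2
  have h4 : LinearMap.trace ℂ U ((mulVecLin (DS Z σ)).restrict hU') =
      LinearMap.trace ℂ (Fin G ⊕ Fin G → ℂ) (π * ph (Fin G ⊕ Fin G) (DS Z σ)) := by
    rw [← LinearMap.trace_restrict_eq_of_forall_mem U (π * ph (Fin G ⊕ Fin G) (DS Z σ))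
      (fun x => h2 _)]
    congr 1
    refine LinearMap.ext fun u => Subtype.ext ?_
    exact (h3 _ (hU' u u.2)).symm
  rw [h4, e2]
  unfold Pool.Agent.Y90.tr
  push_cast
  rfl

/-- The derivative of a product of determinants. -/
theorem prod_det (X : (Fin G ⊕ Fin G → ℂ) →ₗ[ℂ] (Fin G ⊕ Fin G → ℂ)) {I : Type} [Fintype I]
    [DecidableEq I] (W : I → Submodule ℂ (Fin G ⊕ Fin G → ℂ)) (hX : ∀ i, ∀ u ∈ W i, X u ∈ W i)
    (htr : ∑ i, LinearMap.trace ℂ (W i) (X.restrict (hX i)) = 0)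
    (ι : I → Type) [∀ i, Fintype (ι i)] [∀ i, DecidableEq (ι i)]
    (f : ∀ i, Basis (ι i) ℂ (W i)) (q : ∀ x : I, ι x → (Fin G ⊕ Fin G → ℂ) →ₗ[ℂ] W x)
    (hq : ∀ x y v, q x y (X v) = X.restrict (hX x) (q x y v))
    (ψ : MultilinearMap ℂ (fun _ : (Σ x : I, ι x) => Fin G ⊕ Fin G → ℂ) ℂ)
    (hψ : ∀ v, ψ v = ∏ x : I, (f x).det (fun y => q x y (v ⟨x, y⟩))) :
    ac X ψ = 0 := by
  refine MultilinearMap.ext fun v => ?_
  rw [ac_apply]
  let P : I → ℂ := fun x => (f x).det (fun y => q x y (v ⟨x, y⟩))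
  have h1 : ∀ (x : I) (y : ι x), ψ (Function.update v ⟨x, y⟩ (X (v ⟨x, y⟩))) =
      (f x).det (Function.update (fun y => q x y (v ⟨x, y⟩)) y
        (X.restrict (hX x) (q x y (v ⟨x, y⟩)))) * ∏ x' ∈ Finset.univ \ {x}, P x' := by
    intro x y
    rw [hψ, ← Finset.prod_update_of_mem (Finset.mem_univ x)]
    refine Finset.prod_congr rfl fun x' _ => ?_
    by_cases hx : x' = x
    · subst hx
      rw [Function.update_self]
      congr 1
      funext y'
      by_cases hy : y' = y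
      · subst hy
        rw [Function.update_self, Function.update_self, hq]
      · rw [Function.update_of_ne hy, Function.update_of_ne (fun h0 => hy (by
          have h1 := Sigma.mk.inj h0
          exact eq_of_heq h1.2))]
    · rw [Function.update_of_ne hx]
      change _ = (f x').det (fun y => q x' y (v ⟨x', y⟩))
      congr 1
      funext y'
      rw [Function.update_of_ne (fun h0 => hx (congrArg Sigma.fst h0))]
  rw [Fintype.sum_sigma]
  have h2 : ∀ x : I, ∑ y, ψ (Function.update v ⟨x, y⟩ (X (v ⟨x, y⟩))) =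
      LinearMap.trace ℂ (W x) (X.restrict (hX x)) * ∏ x', P x' := by
    intro x
    rw [Finset.sum_congr rfl fun y _ => h1 x y, ← Finset.sum_mul, sum_det_update, mul_assoc]
    congr 1
    have h3 := Finset.prod_update_of_mem (Finset.mem_univ x) P (P x)
    rw [Function.update_eq_self] at h3
    exact h3.symm
  rw [Finset.sum_congr rfl fun x _ => h2 x, ← Finset.sum_mul, htr, zero_mul]
  rfl

/-- **Forms invariant under the second Lie algebra** are killed by the conjugates of the complex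
structure. -/
theorem inv_kill (h : TD Z S) (hZ : PM Z) (hl : LocL Z) {n : ℕ}
    (φ : MultilinearMap ℂ (fun _ : Fin n × Fin 2 => Fin G ⊕ Fin G → ℂ) ℂ)
    (hφ : ∀ (g : Gam (GG (LT S))) v, φ (fun k => RG (GG (LT S)) g (v k)) = φ v)
    (σ : ℂ ≃+* ℂ) : φ ∈ NLie (mulVecLin (DS Z σ)) (Fin n × Fin 2) := by
  have hSI : ∀ {U}, W522.U.SI (RG (GG (LT S))) U ↔ IrS (LZ Z) U := fun {U} => h.si hZ
  have hp := gz_proj h.genI h.cr
  obtain ⟨s, W, hW, hWW, hall⟩ := exists_reps hp
  obtain ⟨st, hst, hDu, hDu'⟩ := exists_st (χ := 1) hp (om G) om_nd (h.om' hZ) W hW hWW hall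
  refine Pool.Agent.Y4.T.forms_mem' (fun Δ hΔ => fi_top Δ hΔ) (om G) om_nd (h.om' hZ) ?_ ?_ ?_ hp
    W hW hWW hall st hst hDu hDu' (NLie (mulVecLin (DS Z σ))) (clo_NLie _) ?_ ?_ φ ?_
  · intro U hU hn
    exact h.unip_of hZ (h.rk_of hZ (hSI.1 hU) hn (hl U (hSI.1 hU) hn).1)
  · intro U hU hn
    exact h.line hZ (hSI.1 hU) hn
  · intro U U' hU hU' hn _ ψ hT
    have h1 := Pool.Agent.Y224.TS.PQ.ns_of_nonscalar hZ (hSI.1 hU) (hl U (hSI.1 hU) hn).2
    refine h.twist_sep hZ (hSI.1 hU) (hSI.1 hU') ?_ ψ hT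
    intro hfr hyp
    left
    intro τ
    rcases hyp τ with h3 | ⟨h3, -⟩
    · exact h3
    · exfalso
      rcases h3 with h3 | h3
      · exact (h1 τ).1 h3
      · exact (h1 τ).2 h3
  · intro b hb i1 i2
    obtain rfl : i1 = Fin.fintype 2 := Subsingleton.elim _ _
    obtain rfl : i2 = instDecidableEqFin 2 := Subsingleton.elim _ _
    have h1 := (h.bil b (fun X hX => hZ.om_sp hX)).1 (fun X hX u v =>
      (gz_bil h.genI stab_top stab_top b).1 (fun g u _ v _ => by
        rw [hb, MonoidHom.one_apply, one_mul]) X hX u trivial v trivial)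
    refine MultilinearMap.ext fun v => ?_
    rw [ac_apply, Fin.sum_univ_two]
    exact h1 _ (DS_mem σ) _ _
  · intro a ha hag ι i1 i2 f q hq' ψ hψ i3 i4
    have hI : ∀ i, IrS (LZ Z) (W i) := fun i => hSI.1 (hW i)
    have hDuZ : ∀ i, Du (RZ Z) 1 (W i) (W (st i)) := fun i =>
      (h.du hZ (hI i).2.1 (hI _).2.1).1 (hDu i)
    have hX : ∀ i, ∀ u ∈ W i, mulVecLin (DS Z σ) u ∈ W i := fun i u hu =>
      (hI i).2.1 _ (DS_mem σ) u hu
    have hqX : ∀ x y, ∀ X ∈ LZ Z, ∀ v, (q x y (X *ᵥ v) : Fin G ⊕ Fin G → ℂ) =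
        X *ᵥ (q x y v : Fin G ⊕ Fin G → ℂ) := by
      intro x y X hX v
      have h1 := fun X hX w => (gz_equiv h.genI stab_top ((W x.1).subtype.comp (q x y))).1
        (fun g u _ => hq' x y g u) X hX w trivial
      exact (h.eqv ((W x.1).subtype.comp (q x y))).1 h1 X hX v
    have h5 := prod_det (mulVecLin (DS Z σ)) (I := (Σ i, Fin (a i).toNat)) (fun x => W x.1)
      (fun x => hX x.1) (by
        rw [Finset.sum_congr rfl fun x _ => trace_DS hZ σ (hI x.1).2.1 (hX x.1)]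
        exact_mod_cast sum_of_tr hZ W hI st hst hDuZ a ha σ.symm
          (h.tr_of_det hZ W hI a hag σ.symm)) (fun x => ι x.1) (fun x => f x.1) q
      (fun x y v => Subtype.ext (hqX x y _ (DS_mem σ) v)) ψ hψ
    obtain rfl : i3 = Sigma.instFintype := Subsingleton.elim _ _
    obtain rfl : i4 = Sigma.instDecidableEqSigma := Subsingleton.elim _ _
    exact h5
  · refine ⟨⊤, inferInstance, fun g _ v => ?_⟩
    rw [MonoidHom.one_apply, one_pow, one_mul]
    exact hφ g v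

end

end Pool.Agent.Y90.L
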