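import Mathlib
import Pool.Agent.Y90.L.Kill

/-!
# Tate classes on abelian varieties with admissible simple factors
-/

set_option linter.unusedSectionVars false

namespace Pool.Agent.Y90.L

open Matrix Module Pool.Agent.W437.HC Pool.Agent.W437.HD Pool.Agent.W548.Odd
open Pool.Agent.W522.U (exists_reps exists_st Du)
open Pool.Agent.H204R3.SP Pool.Agent.H204R3.GP Pool.Agent.Y90 TensorProduct
open Pool.Agent.Y224.TS (TD LT LT_gen RkC NSc SyF rkC_prime rkC_fac kills_LT killL SH td_of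
  tate_descent)
open Pool.Agent.Y224.TS.St (IsHodgeTate IsTateModule)
open Pool.Agent.Y153.GV (NLie inv_of_InvF)
open Pool.Agent.Y90.G (ac ac_apply MV InvF)
open Pool.Agent.Y90.S
open Pool.Agent.W437.HP (cK cK_mul cK_one)

noncomputable section

section simple

variable {g : ℕ} {Z : Matrix (Fin g) (Fin g) ℂ}

/-- Symplectic submodules in the case of real multiplication. -/
theorem syF_rm (h : PM Z) {M : Matrix (Fin g ⊕ Fin g) (Fin g ⊕ Fin g) ℚ}
    {A : Submodule ℚ (Matrix (Fin g ⊕ Fin g) (Fin g ⊕ Fin g) ℚ)} (r : RMA Z M A)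
    {U : Submodule ℂ (Fin g ⊕ Fin g → ℂ)} (hU : IrS (LZ Z) U) : SyF Z U := by
  obtain ⟨S, hS, hi, hnd⟩ := Pool.Agent.Y758.S4.jrm g Z h M A r U hU
  have hinv := inv_LZ r.inv
  have hM : (qm M)ᵀ = -qm M := by
    have h1 := congrArg qm r.skew
    ext i j
    have h2 := congrFun (congrFun h1 i) j
    simp only [Matrix.map_apply, transpose_apply, Matrix.neg_apply, Rat.cast_neg] at h2 ⊢
    exact h2
  refine ⟨(wwL (qm M)).compl₁₂ S S, fun X hX u v => ?_, fun u _ => ?_, fun u hu h0 => ?_⟩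
  · rw [LinearMap.compl₁₂_apply, LinearMap.compl₁₂_apply, hS X hX, hS X hX]
    exact form_inv (hinv X hX) (S u) (S v)
  · rw [LinearMap.compl₁₂_apply]
    change (S u) ⬝ᵥ (qm M *ᵥ S u) = 0
    have h1 : (S u) ⬝ᵥ (qm M *ᵥ S u) = -((S u) ⬝ᵥ (qm M *ᵥ S u)) := by
      conv_lhs => rw [dotProduct_comm, ← vecMul_transpose, hM, ← dotProduct_mulVec, neg_mulVec,
        dotProduct_neg]
    linear_combination (1 / 2 : ℂ) * h1
  · refine hi u hu (hnd _ ⟨u, hu, rfl⟩ ?_)
    rintro _ ⟨v, hv, rfl⟩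
    exact h0 v hv

/-- The local condition for admissible simple factors. -/
theorem rkC_adm (h : PM Z) (hs : IsSimpleAV Z) (hg : 0 < g) {m w : ℕ} (hA : AdmC m w Z)
    {U : Submodule ℂ (Fin g ⊕ Fin g → ℂ)} (hU : IrS (LZ Z) U) (hn : 2 ≤ finrank ℂ U) :
    RkC Z U := by
  rcases hA.2 with hcm | h3 | ⟨k, M, A, hk, r, hA'⟩ | ⟨p, q, φ, d, hq, hpq, hpw, hqw, hc⟩
  · exact rkC_prime h hs hg (Or.inl hcm) hU hn
  · refine rkC_prime h hs hg (Or.inr ?_) hU hn
    rcases (by omega : g = 1 ∨ g = 2 ∨ g = 3) with rfl | rfl | rfl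
    · exact Or.inl rfl
    · exact Or.inr Nat.prime_two
    · exact Or.inr Nat.prime_three
  · right; left
    refine ⟨?_, syF_rm h r hU⟩
    rw [(R.cls_rm' h hs hg r hA' hU).1]
    rcases hk with ⟨j, rfl⟩ | rfl
    · left
      omega
    · right
      rfl
  · obtain ⟨k₁, i₁, s₁, hall⟩ := Pool.Agent.Y31.S4.jiq g Z h hg φ d hq (dE d) (dE_sq hq.pos)
    obtain ⟨k₂, i₂, s₂, -⟩ := Pool.Agent.Y31.S4.jiq g Z h hg φ d hq (-dE d)
      (by rw [neg_mul_neg, dE_sq hq.pos])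
    obtain ⟨e₁, e₂⟩ := pd_EG k₁
    have hsig : ∀ {F : Submodule ℂ (Fin g ⊕ Fin g → ℂ)}, IrS (LZ Z) F →
        (pd Z F = p ∧ qd Z F = q) ∨ (pd Z F = q ∧ qd Z F = p) := by
      intro F hF
      rcases hall F hF with rfl | rfl
      · exact hpq
      · rw [e₁, e₂]
        rcases hpq with ⟨h1, h2⟩ | ⟨h1, h2⟩
        · exact Or.inr ⟨h2, h1⟩
        · exact Or.inl ⟨h2, h1⟩
    have hsum : ∀ {F : Submodule ℂ (Fin g ⊕ Fin g → ℂ)}, IrS (LZ Z) F →
        finrank ℂ F = p + q := by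
      intro F hF
      have h1 := pd_add_qd h hF.2.1
      rcases hsig hF with ⟨h2, h3⟩ | ⟨h2, h3⟩ <;> omega
    have hp0 : 0 < p ∧ 0 < q := by
      have h1 := hsum hU
      rcases hc with hc | ⟨rfl, rfl⟩
      · constructor
        · rw [Nat.pos_iff_ne_zero]
          rintro rfl
          rw [Nat.coprime_zero_left] at hc
          omega
        · rw [Nat.pos_iff_ne_zero]
          rintro rfl
          rw [Nat.coprime_zero_right] at hc
          omega
      · omega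
    rcases hc with hc | ⟨rfl, rfl⟩
    · right; right; left
      refine ⟨RingEquiv.refl ℂ, ?_⟩
      rw [Pool.Agent.Y224.TS.PQ.cjS_refl]
      rcases hsig hU with ⟨h2, h3⟩ | ⟨h2, h3⟩
      · rw [h2, h3]
        exact ⟨hp0.1, hp0.2, hc⟩
      · rw [h2, h3]
        exact ⟨hp0.2, hp0.1, hc.symm⟩
    · right; right; right
      refine ⟨hsum hU, nonscalar_of h hU fun F hF _ ε hε hsc => ?_, fun h0 => ?_, fun σ => ?_⟩
      · rcases hε with rfl | rfl
        · have h1 : F ≤ eig Z 1 := fun u hu => hsc u hu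
          have h2 : F ⊓ eig Z (-1) = ⊥ := by
            rw [eq_bot_iff, ← eig_inf (Z := Z) 1 (-1) (by norm_num)]
            exact inf_le_inf h1 le_rfl
          have h3 : qd Z F = 0 := by
            unfold qd
            rw [h2, finrank_bot]
          rcases hsig hF with ⟨h5, h6⟩ | ⟨h5, h6⟩ <;> omega
        · have h1 : F ≤ eig Z (-1) := fun u hu => hsc u hu
          have h2 : F ⊓ eig Z 1 = ⊥ := by
            rw [eq_bot_iff, ← eig_inf (Z := Z) (-1) 1 (by norm_num)]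
            exact inf_le_inf h1 le_rfl
          have h3 : pd Z F = 0 := by
            unfold pd
            rw [h2, finrank_bot]
          rcases hsig hF with ⟨h5, h6⟩ | ⟨h5, h6⟩ <;> omega
      · rcases hall U hU with rfl | rfl
        · exact s₁ h0
        · exact s₂ h0
      · rcases hsig (hU.cj gal_LZ σ) with ⟨h2, -⟩ | ⟨h2, -⟩ <;> exact h2

end simple

section fac

variable {G : ℕ} {Z : Matrix (Fin G) (Fin G) ℂ}

/-- The local conditions if the simple factors are admissible. -/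
theorem locL_of (h : PM Z) {m w : ℕ} (hw : 2 ≤ w) (hs : AdmF m w Z) : LocL Z := by
  intro U hU hn
  refine ⟨?_, ((loc3 Pool.Agent.Y758.S4.jrm Pool.Agent.Y758.S4.jrmdim Pool.Agent.Y454.S4.jOdd
    Pool.Agent.Y79.S4.jTwo Pool.Agent.Y162.S4.cop Pool.Agent.Y79.S4.jTwoTwo Pool.Agent.Y31.S4.jiq
    h hw hs hU).1 hn).2⟩
  obtain ⟨a, Z', E, F, hf, h', hs', ha, h0⟩ := exists_fac h hU.1
  have hinj := hf.inj hU h0
  have hU' := hf.irr hU h0
  refine rkC_fac hf h h' hU hinj (rkC_adm h' hs' ha (hs a Z' E F hf h' hs' ha) hU' ?_)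
  rw [finrank_ml hinj]
  exact hn

theorem kills_LZ {κ : Type} [Fintype κ] [DecidableEq κ] {φ : MV G κ}
    (hφ : ∀ σ, ac (mulVecLin (DS Z σ)) φ = 0) : InvF Z φ := by
  have h1 : LZ Z ≤ killL φ := LZ_le (fun σ => by
    refine act_of_kills fun v => ?_
    have h2 := congrArg (fun F : MV G κ => F v) (hφ σ)
    simp only [ac_apply] at h2
    exact h2) (fun A hA C hC => act_bracket hA hC)
  intro X hX
  refine MultilinearMap.ext fun v => ?_
  rw [ac_apply]
  exact kills_of_act (h1 hX) v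

/-- **Tate forms** belong to the generated system. -/
theorem tateF_mem {S₀ : Set (Matrix (Fin G ⊕ Fin G) (Fin G ⊕ Fin G) ℂ)} (hT : TD Z S₀) (h : PM Z)
    {m w : ℕ} (hm : 1 ≤ m) (hw : 2 ≤ w) (hs : AdmF m w Z) {n : ℕ}
    (φ : MultilinearMap ℂ (fun _ : Fin n × Fin 2 => Fin G ⊕ Fin G → ℂ) ℂ)
    (hφ : ∀ D ∈ S₀, Kills (ph (Fin G ⊕ Fin G) D) φ) :
    φ ∈ S.NG m w (perOne Z) (Fin n × Fin 2) := by
  have hinv : ∀ (g : Gam (GG (LT S₀))) v, φ (fun k => RG (GG (LT S₀)) g (v k)) = φ v := by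
    intro g v
    refine inv_gam φ (fun D hD _ => ?_) g v
    obtain ⟨X, hX, rfl⟩ := exists_GG hD
    exact kills_LT hφ hX
  have h1 : InvF Z φ := kills_LZ fun σ =>
    inv_kill hT h (locL_of h hw hs) φ hinv σ inferInstance inferInstance
  exact inv_memS Pool.Agent.Y758.S4.jrm Pool.Agent.Y758.S4.jrmdim Pool.Agent.Y454.S4.jOdd
    Pool.Agent.Y79.S4.jTwo Pool.Agent.Y162.S4.cop Pool.Agent.Y79.S4.jTwoTwo
    Pool.Agent.Y31.S4.jiq Pool.Agent.Y317.S4.Disc.x Pool.Agent.Y407.S4.core h hm hw hs φ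
    (fun g v => inv_of_InvF h1 g v)

end fac

section ab

variable {H : Type} [AddCommGroup H] [Module ℚ H] {K : Type} [Field K] [CharZero K] [Algebra K ℂ]
  {T : Type} [AddCommGroup T] [Module ℂ T] {per : H →+ T} {Γ : Type} [Group Γ]
  {ρ : Representation K Γ (K ⊗[ℚ] H)} {χ : Γ →* K} {E : H → H → ℚ}

/-- **Tate classes** on abelian varieties with admissible simple factors. -/
theorem tate_adm [Algebra.IsAlgebraic K ℂ] (m w : ℕ) (hm : 1 ≤ m) (hw : 2 ≤ w)
    (hX : St.IsAV per) (hs : S.Admissible m w per) (hE : St.IsPolarization per E)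
    (hρ : IsTateModule per E ρ χ) {κ : Type} [Finite κ] {n : ℕ} (hκ : Nat.card κ = 2 * n)
    (φ : (K ⊗[ℚ] H) [⋀^κ]→ₗ[K] K)
    (hφ : ∃ Δ : Subgroup Γ, Δ.FiniteIndex ∧ ∀ g ∈ Δ, ∀ v : κ → K ⊗[ℚ] H,
      φ (fun k => ρ g (v k)) = χ g ^ n * φ v) :
    ∃ (N : ℕ) (c : Fin N → K) (f : Fin N → (H [⋀^κ]→ₗ[ℚ] ℚ)),
      (∀ j, S.Generated m w per κ (f j)) ∧
        ∀ v : κ → H, φ (fun k => (1 : K) ⊗ₜ[ℚ] v k) = ∑ j, c j * ((f j v : ℚ) : K) := by
  classical
  obtain ⟨a, Z, hZ, b, hC, hb⟩ := Pool.Agent.Y224.TS.exists_ppav' hX hE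
  have hsf : AdmF m w Z := admF_of Pool.Agent.Y606.S4.jTransR Pool.Agent.Y941.S4.jTransQ
    b.equivFun hC hs
  have hTD : TD Z (SH per ρ χ b) := td_of b hb hC hρ
  obtain ⟨Ψ₂, h₂⟩ := hC.hom hZ.cht (R := 1) (by rw [cK_one, Matrix.one_mul, Matrix.mul_one])
  have e₂ : ∀ v, Ψ₂ (per v) = perOne Z (b.equivFun v) := fun v => by
    have h3 := h₂ (b.equivFun v)
    have h4 : (per.comp b.equivFun.symm.toLinearMap.toAddMonoidHom) (b.equivFun v) = per v := by
      change per (b.equivFun.symm (b.equivFun v)) = per v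
      rw [LinearEquiv.symm_apply_apply]
    rwa [h4, one_mulVec] at h3
  obtain ⟨e, N, c, r, hr, h⟩ := tate_descent b
    (fun κ r => Generated m w (perOne Z) κ r)
    (fun n φ hφ => by
      have h1 := tateF_mem hTD hZ hm hw hsf φ hφ inferInstance inferInstance
      exact h1) hκ φ hφ
  refine ⟨N, c, fun j => ((r j).compLinearMap b.equivFun.toLinearMap).domDomCongr e.symm,
    fun j => ?_, fun v => ?_⟩
  · exact Generated.reindex e.symm _ (Generated.pull hX _ (hr j) b.equivFun.toLinearMap ⟨Ψ₂, e₂⟩)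
  · rw [h v]
    rfl

end ab

end

end Pool.Agent.Y90.L
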